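import Mathlib

namespace Pool.Agent.Results.MP_4aedba_al.Incomplete

open Filter Topology

/-- `τ` is a non-discrete Hausdorff ring topology on `R`. -/
def IsNDRingTop (R : Type) [Ring R] (τ : TopologicalSpace R) : Prop :=
  @Continuous (R × R) R (@instTopologicalSpaceProd R R τ τ) τ (fun p => p.1 - p.2) ∧
  @Continuous (R × R) R (@instTopologicalSpaceProd R R τ τ) τ (fun p => p.1 * p.2) ∧
  @T2Space R τ ∧ ¬ @DiscreteTopology R τ

/-- `τ` is a maximal ring topology: non-discrete Hausdorff, and no non-discrete Hausdorff ring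
topology is strictly finer. -/
def IsMaximalRingTop (R : Type) [Ring R] (τ : TopologicalSpace R) : Prop :=
  IsNDRingTop R τ ∧ ∀ τ' : TopologicalSpace R, IsNDRingTop R τ' →
    (∀ U : Set R, IsOpen[τ] U → IsOpen[τ'] U) → τ' = τ

/-- Every Cauchy filter for the additive uniformity converges. -/
def IsCompleteRing (R : Type) [Ring R] (τ : TopologicalSpace R) : Prop :=
  ∀ F : Filter R, F.NeBot →
    (∀ U ∈ @nhds R τ 0, ∃ A ∈ F, ∀ x ∈ A, ∀ y ∈ A, x - y ∈ U) → ∃ a, F ≤ @nhds R τ a

abbrev K := ZMod 2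
abbrev B := ℕ →₀ K
abbrev E := Module.End K B

def T : Type := E × B × K

noncomputable instance : AddCommGroup T := inferInstanceAs (AddCommGroup (E × B × K))

noncomputable instance : Mul T :=
  ⟨fun a b => (a.1 * b.1, a.1 b.2.1 + b.2.2 • a.2.1, a.2.2 * b.2.2)⟩
noncomputable instance : One T := ⟨(1, 0, 1)⟩

lemma T.ext' {a b : T} (h1 : a.1 = b.1) (h2 : a.2.1 = b.2.1) (h3 : a.2.2 = b.2.2) : a = b :=
  Prod.ext h1 (Prod.ext h2 h3)

@[simp] lemma mul1 (a b : T) : (a * b).1 = a.1 * b.1 := rfl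
@[simp] lemma mul2 (a b : T) : (a * b).2.1 = a.1 b.2.1 + b.2.2 • a.2.1 := rfl
@[simp] lemma mul3 (a b : T) : (a * b).2.2 = a.2.2 * b.2.2 := rfl
@[simp] lemma add1 (a b : T) : (a + b).1 = a.1 + b.1 := rfl
@[simp] lemma add2 (a b : T) : (a + b).2.1 = a.2.1 + b.2.1 := rfl
@[simp] lemma add3 (a b : T) : (a + b).2.2 = a.2.2 + b.2.2 := rfl
@[simp] lemma neg1 (a : T) : (-a).1 = -a.1 := rfl
@[simp] lemma neg2 (a : T) : (-a).2.1 = -a.2.1 := rfl
@[simp] lemma neg3 (a : T) : (-a).2.2 = -a.2.2 := rfl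
@[simp] lemma one1 : (1 : T).1 = 1 := rfl
@[simp] lemma one2 : (1 : T).2.1 = 0 := rfl
@[simp] lemma one3 : (1 : T).2.2 = 1 := rfl
@[simp] lemma zero1 : (0 : T).1 = 0 := rfl
@[simp] lemma zero2 : (0 : T).2.1 = 0 := rfl
@[simp] lemma zero3 : (0 : T).2.2 = 0 := rfl

noncomputable instance : Ring T :=
  { (inferInstance : AddCommGroup T), (inferInstance : Mul T), (inferInstance : One T) with
    mul_assoc := fun a b c => T.ext' (by simp [mul_assoc])
      (by simp [smul_add, add_assoc, mul_smul, smul_comm b.2.2 c.2.2]) (by simp [mul_assoc])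
    one_mul := fun a => T.ext' (by simp) (by simp) (by simp)
    mul_one := fun a => T.ext' (by simp) (by simp) (by simp)
    zero_mul := fun a => T.ext' (by simp) (by simp) (by simp)
    mul_zero := fun a => T.ext' (by simp) (by simp) (by simp)
    left_distrib := fun a b c => T.ext' (by simp [mul_add])
      (by simp only [mul2, add2, add3, map_add, add_smul]; abel) (by simp [mul_add])
    right_distrib := fun a b c => T.ext' (by simp [add_mul])
      (by simp only [mul2, add2, add1, LinearMap.add_apply, smul_add]; abel) (by simp [add_mul]) }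

/-- the middle ideal -/
noncomputable def ι (x : B) : T := (0, x, 0)

@[simp] lemma ι1 (x : B) : (ι x).1 = 0 := rfl
@[simp] lemma ι2 (x : B) : (ι x).2.1 = x := rfl
@[simp] lemma ι3 (x : B) : (ι x).2.2 = 0 := rfl
noncomputable def κ (S : E) : T := (S, 0, 0)
@[simp] lemma κ1 (x : E) : (κ x).1 = x := rfl
@[simp] lemma κ2 (x : E) : (κ x).2.1 = 0 := rfl
@[simp] lemma κ3 (x : E) : (κ x).2.2 = 0 := rfl
lemma ι_add (x y : B) : ι (x + y) = ι x + ι y := T.ext' (by simp) (by simp) (by simp)

def N (F : Finset (B →ₗ[K] K)) : AddSubgroup T where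
  carrier := {a | a.1 = 0 ∧ a.2.2 = 0 ∧ ∀ l ∈ F, l a.2.1 = 0}
  zero_mem' := ⟨rfl, rfl, fun l _ => by simp⟩
  add_mem' := fun {a b} ha hb => ⟨by simp [ha.1, hb.1], by simp [ha.2.1, hb.2.1],
    fun l hl => by simp [ha.2.2 l hl, hb.2.2 l hl]⟩
  neg_mem' := fun {a} ha => ⟨by rw [neg1, ha.1]; ext; simp, by simp [ha.2.1], fun l hl => by simp [ha.2.2 l hl]⟩

lemma mem_N {F : Finset (B →ₗ[K] K)} {a : T} :
    a ∈ N F ↔ a.1 = 0 ∧ a.2.2 = 0 ∧ ∀ l ∈ F, l a.2.1 = 0 := Iff.rfl

lemma basis : RingSubgroupsBasis N := by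
  classical
  refine ⟨fun i j => ⟨i ∪ j, fun a ha => ⟨⟨ha.1, ha.2.1, fun l hl => ha.2.2 l (by simp [hl])⟩,
    ⟨ha.1, ha.2.1, fun l hl => ha.2.2 l (by simp [hl])⟩⟩⟩, fun i => ⟨i, ?_⟩, fun x i => ?_,
    fun x i => ⟨i, ?_⟩⟩
  · rintro _ ⟨a, ha, b, hb, rfl⟩
    exact ⟨by simp [ha.1], by simp [ha.2.1], fun l _ => by simp [ha.1, hb.2.1]⟩
  · refine ⟨i.image fun l => l ∘ₗ x.1, fun a ha => ⟨by simp [ha.1], by simp [ha.2.1],
      fun l hl => ?_⟩⟩
    have := ha.2.2 _ (Finset.mem_image_of_mem _ hl)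
    simpa [ha.2.1] using this
  · intro a ha
    exact ⟨by simp [ha.1], by simp [ha.2.1], fun l hl => by simp [ha.1, ha.2.2 l hl]⟩

lemma avoid (W : Set B) (h : ∀ F : Finset B, ∃ b, ∀ f ∈ F, b + f ∉ W) :
    ∃ S : E, ∀ y, y ≠ 0 → S y ∉ W := by
  classical
  choose g hg using h
  let F : ℕ → Finset B := fun n => Nat.rec {0} (fun _ G => G ∪ G.image (g G + ·)) n
  have hF : ∀ n, F (n + 1) = F n ∪ (F n).image (g (F n) + ·) := fun n => rfl
  let S : E := Finsupp.linearCombination K fun n => g (F n)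
  have key : ∀ k (y : B), (∀ i, k ≤ i → y i = 0) → S y ∈ F k ∧ (y ≠ 0 → S y ∉ W) := by
    intro k
    induction k with
    | zero =>
      intro y hy
      have : y = 0 := by ext i; exact hy i (Nat.zero_le _)
      subst this
      simp [F]
    | succ k ih =>
      intro y hy
      have h1 := ih (y.erase k) (fun i hi => by
        rcases eq_or_lt_of_le hi with rfl | hi
        · simp
        · rw [Finsupp.erase_ne hi.ne']; exact hy i hi)
      have h2 : y = Finsupp.single k (y k) + y.erase k := (Finsupp.single_add_erase k y).symm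
      have h3 : ∀ c : K, c = 0 ∨ c = 1 := by decide
      rcases h3 (y k) with h | h
      · rw [h, Finsupp.single_zero, zero_add] at h2
        rw [← h2] at h1
        exact ⟨by rw [hF]; exact Finset.mem_union_left _ h1.1, h1.2⟩
      · have h4 : S y = g (F k) + S (y.erase k) := by
          conv_lhs => rw [h2, h]
          simp [S]
        rw [h4]
        exact ⟨by rw [hF]; exact Finset.mem_union_right _ (Finset.mem_image_of_mem _ h1.1),
          fun _ => hg _ _ h1.1⟩
  refine ⟨S, fun y hy => (key (y.support.sup id + 1) y fun i hi => ?_).2 hy⟩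
  by_contra hne
  have := Finset.le_sup (f := id) (Finsupp.mem_support_iff.2 hne)
  simp only [id] at this
  omega

lemma nd_iff (τ : TopologicalSpace T) :
    IsNDRingTop T τ ↔ @IsTopologicalRing T τ _ ∧ @T2Space T τ ∧ ¬ @DiscreteTopology T τ := by
  constructor
  · rintro ⟨h1, h2, h3, h4⟩
    refine ⟨?_, h3, h4⟩
    have hneg : Continuous (fun a : T => -a) := by
      have := h1.comp (continuous_const.prodMk continuous_id : Continuous fun a : T => ((0 : T), a))
      simpa [Function.comp_def] using this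
    have hadd : Continuous (fun p : T × T => p.1 + p.2) := by
      have := h1.comp (continuous_fst.prodMk (hneg.comp continuous_snd) :
        Continuous fun p : T × T => (p.1, -p.2))
      simpa [Function.comp_def] using this
    exact { continuous_add := hadd, continuous_mul := h2, continuous_neg := hneg }
  · rintro ⟨h1, h3, h4⟩
    exact ⟨continuous_sub, continuous_mul, h3, h4⟩

lemma disc_of {τ : TopologicalSpace T} (h : @IsTopologicalRing T τ _)
    (h0 : ({0} : Set T) ∈ @nhds T τ 0) : @DiscreteTopology T τ := by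
  refine discreteTopology_of_isOpen_singleton_zero ?_
  rw [isOpen_iff_mem_nhds]
  rintro _ rfl
  exact h0

theorem result : ∃ (R : Type) (_ : Ring R) (τ : TopologicalSpace R),
    IsMaximalRingTop R τ ∧ ¬ IsCompleteRing R τ := by
  classical
  let τ₀ : TopologicalSpace T := basis.topology
  have hb := basis.hasBasis_nhds_zero
  have r0 : @IsTopologicalRing T τ₀ _ := basis.toRingFilterBasis.isTopologicalRing
  have t0 : @T2Space T τ₀ := by
    refine @IsTopologicalAddGroup.t2Space_of_zero_sep T τ₀ _ _ fun x hx => ?_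
    by_cases h : x ∈ N ∅
    · have : x.2.1 ≠ 0 := fun h' => hx (T.ext' h.1 h' h.2.1)
      obtain ⟨i, hi⟩ := Finsupp.ne_iff.1 this
      exact ⟨_, hb.mem_of_mem (i := {Finsupp.lapply i}) trivial,
        fun h' => hi (h'.2.2 _ (Finset.mem_singleton_self _))⟩
    · exact ⟨_, hb.mem_of_mem (i := ∅) trivial, h⟩
  have d0 : ¬ @DiscreteTopology T τ₀ := by
    intro hd
    have : ({0} : Set T) ∈ @nhds T τ₀ 0 := (isOpen_discrete _).mem_nhds rfl
    obtain ⟨F, -, hF⟩ := hb.mem_iff.1 this
    obtain ⟨a, b, hab, he⟩ := Finite.exists_ne_map_eq_of_infinite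
      (fun (n : ℕ) (l : F) => l.1 (Finsupp.single n 1))
    have : ι (Finsupp.single a 1 - Finsupp.single b 1) ∈ N F :=
      ⟨rfl, rfl, fun l hl => by
        have := congrFun he ⟨l, hl⟩
        simp only at this
        simp [this]⟩
    have h2 := congrArg (fun z : T => z.2.1 a) (hF this)
    simp [Finsupp.single_apply, hab.symm] at h2
  let S : Set (TopologicalSpace T)ᵒᵈ := {t | @IsTopologicalRing T (OrderDual.ofDual t) _ ∧
    OrderDual.ofDual t ≤ τ₀ ∧ ¬ @DiscreteTopology T (OrderDual.ofDual t)}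
  obtain ⟨τ, -, hτ, hmax⟩ := zorn_le_nonempty₀ S (fun c hc hch y hy => by
    let c' : Set (TopologicalSpace T) := c
    refine ⟨OrderDual.toDual (sInf c'), ⟨?_, ?_, ?_⟩, fun z hz => ?_⟩
    · exact @IsTopologicalRing.mk T (sInf c') _
        (@IsTopologicalSemiring.mk T (sInf c') _
          (continuousAdd_sInf fun t ht => (hc ht).1.toIsTopologicalSemiring.toContinuousAdd)
          (continuousMul_sInf fun t ht => (hc ht).1.toIsTopologicalSemiring.toContinuousMul))
        (continuousNeg_sInf fun t ht => (hc ht).1.toContinuousNeg)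
    · exact (sInf_le (s := c') hy).trans (hc hy).2.1
    · intro hd
      have : ({0} : Set T) ∈ @nhds T (sInf c') 0 :=
        @IsOpen.mem_nhds T (sInf c') _ _ (@isOpen_discrete T (sInf c') hd _) rfl
      rw [nhds_sInf, mem_biInf_of_directed (s := c') ?_ ⟨y, hy⟩] at this
      · obtain ⟨t, ht, h0⟩ := this
        exact (hc ht).2.2 (disc_of (hc ht).1 h0)
      · intro a ha b hb'
        rcases hch.total ha hb' with h | h
        · exact ⟨b, hb', nhds_mono h, le_rfl⟩
        · exact ⟨a, ha, le_rfl, nhds_mono h⟩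
    · exact sInf_le (s := c') hz) (OrderDual.toDual τ₀) ⟨r0, le_rfl, d0⟩
  let σ : TopologicalSpace T := OrderDual.ofDual τ
  have hr : @IsTopologicalRing T σ _ := hτ.1
  have hle : σ ≤ τ₀ := hτ.2.1
  have hnd : ¬ @DiscreteTopology T σ := hτ.2.2
  refine ⟨T, inferInstance, σ, ⟨(nd_iff _).2 ⟨hr, t2Space_antitone hle t0, hnd⟩, ?_⟩, ?_⟩
  · intro τ' h' hf
    obtain ⟨a, -, b⟩ := (nd_iff _).1 h'
    have h1 : τ' ≤ σ := hf
    exact le_antisymm h1 (hmax (y := OrderDual.toDual τ') ⟨a, h1.trans hle, b⟩ h1)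
  · intro hc
    clear_value σ
    have hN : ∀ F, (N F : Set T) ∈ @nhds T σ 0 := fun F => nhds_mono hle (hb.mem_of_mem trivial)
    clear hb r0 t0 d0 hle hmax hτ
    clear S
    clear τ₀
    have synd : ∀ W ∈ 𝓝 (0 : T), ∃ F : Finset B, ∀ b, ∃ f ∈ F, ι (b + f) ∈ W := by
      intro W hW
      by_contra hcon
      push Not at hcon
      obtain ⟨S, hS⟩ := avoid {b | ι b ∈ W} hcon
      have hc : Continuous fun a : T => κ S * a := continuous_const.mul continuous_id
      have h1 := hc.continuousAt (x := 0) (by rw [mul_zero]; exact hW)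
      refine hnd (disc_of hr (mem_of_superset (inter_mem h1 (hN ∅)) ?_))
      rintro a ⟨ha, ha'⟩
      by_contra hne
      refine hS a.2.1 (fun h => hne (T.ext' ha'.1 h ha'.2.1)) ?_
      have : κ S * a = ι (S a.2.1) :=
        T.ext' (by simp [ha'.1]) (by simp) (by simp)
      change κ S * a ∈ W at ha
      rwa [this] at ha
    let U : Ultrafilter T := (hyperfilter ℕ).map fun n => ι (Finsupp.single n 1)
    obtain ⟨a, ha⟩ := hc U inferInstance (fun V hV => by
      have h1 : Tendsto (fun p : T × T => p.1 - p.2) (𝓝 (0, 0)) (𝓝 0) :=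
        Continuous.tendsto' (f := fun p : T × T => p.1 - p.2) continuous_sub _ _ (sub_zero _)
      have h2 := h1 hV
      rw [nhds_prod_eq, mem_map, mem_prod_self_iff] at h2
      obtain ⟨W, hW, hWV⟩ := h2
      obtain ⟨F, hF⟩ := synd W hW
      have : (⋃ f ∈ (F : Set B), {x : T | x + ι f ∈ W}) ∈ U := by
        rw [Ultrafilter.mem_map]
        refine univ_mem' fun n => ?_
        obtain ⟨f, hf, h⟩ := hF (Finsupp.single n 1)
        simp only [Set.mem_preimage, Set.mem_iUnion, Set.mem_ofPred_eq]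
        exact ⟨f, hf, by rwa [← ι_add]⟩
      obtain ⟨f, -, hf⟩ := (Ultrafilter.finite_biUnion_mem_iff F.finite_toSet).1 this
      refine ⟨_, hf, fun x hx y hy => ?_⟩
      have := hWV (Set.mk_mem_prod hx hy)
      simpa using this)
    have key : ∀ l : B →ₗ[K] K, ∀ᶠ n in (hyperfilter ℕ : Filter ℕ),
        l (Finsupp.single n 1) = l a.2.1 := by
      intro l
      have h1 : Tendsto (fun x : T => x - a) (𝓝 a) (𝓝 0) :=
        Continuous.tendsto' (f := fun x : T => x - a) (continuous_id.sub continuous_const) _ _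
          (sub_self _)
      have h2 := ha (h1 (hN {l}))
      have h3 : ∀ᶠ n in (hyperfilter ℕ : Filter ℕ), ι (Finsupp.single n 1) - a ∈ N {l} := h2
      refine h3.mono fun n hn => ?_
      have := hn.2.2 l (Finset.mem_singleton_self _)
      rw [sub_eq_add_neg, add2, neg2, ι2, map_add, map_neg] at this
      exact add_neg_eq_zero.1 this
    have z : a.2.1 = 0 := by
      ext i
      have h1 : ∀ᶠ n in (hyperfilter ℕ : Filter ℕ), n ≠ i :=
        hyperfilter_le_cofinite (eventually_cofinite_ne i)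
      obtain ⟨n, h2, h3⟩ := ((key (Finsupp.lapply i)).and h1).exists
      simpa [Finsupp.single_apply, h3] using h2.symm
    obtain ⟨n, hn⟩ := (key (Finsupp.linearCombination K fun _ => (1 : K))).exists
    simp [z] at hn

end Pool.Agent.Results.MP_4aedba_al.Incomplete
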